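import Pool.Agent.K6.H33.PT.AsmW
import Pool.Agent.K6.H93.NT.PQ
import Pool.Agent.K6.H35.NT.LB

set_option autoImplicit false

/-! # Poles of local topological zeta functions and roots of `b`: powers of nested minors and Pfaffians

Let `F_1, ..., F_n` be the leading principal minors of the generic `n × n` matrix (`Kind.generic`, `d = 1`)
or the Pfaffians of the leading principal submatrices of even size of the generic skew symmetric
`2 n × 2 n` matrix (`Kind.skew`, `d = 2`) and `f = F_1 ^ (a_1) ⋯ F_n ^ (a_n)`, a germ at the origin. Every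
pole `s₀` of the local topological zeta function is a root of every local `b` if
any two of the numbers `(d (j - k) + 1) / (a_k + ... + a_j)`, `k ≤ j`, `a_j > 0`, differ by less than one
(`Close`), for instance if all `a_k = 1`, or if all these numbers are at most one. For ALL exponents
`a_k ≥ 0` one of the numbers `s₀, s₀ + 1, s₀ + 2, ...` is a root of `b`.

The local topological zeta function is defined as by Denef and Loeser, from the local motivic zeta
function `Z_mot(T) = ∑_d [X_d] 𝕃 ^ (-N d) T ^ d` in `𝓜[[T]]`, `X_d` the `d`-jets with origin `0` on which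
`f` has the order `d` (`zetaM f {0} {c | c ≠ 0}`), `𝓜` the Grothendieck ring of complex varieties,
localised at `𝕃`: `Z_top(s) = χ(Z_mot(𝕃 ^ (-s)))` for `s = 1, 2, 3, …`. For this, let `E` be a
homomorphism from `𝓜` to a domain `R` with `E(𝕃) ≠ 1`, such as the Hodge-Deligne polynomial
`E(u, v)`, and `ε` a homomorphism from `R` to `ℂ` with `ε(E(𝕃)) = 1`, such as `u, v ↦ 1`, so that
`ε ∘ E` is the Euler characteristic `χ` (`IsTopZeta`).

No resolution of singularities is used.

* The motivic zeta function (`K6/H33/NT`, `K6/H33/PT`). The states of the recursion are a partial row `u`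
  with `m` entries and a generic matrix `C` with `N` rows and `N + 1` columns, or a generic skew symmetric
  matrix `C` of odd size `2 N + 1` (`Gs`); the polynomials are the leading minors or Pfaffians of `C` and
  of `C` with the row `u` on top (and the column `-u` on the left). The jets on which an entry `u_k`,
  `k < m`, is a unit are reduced by elimination of columns (of rows and columns), the pivot `k` moving to
  the place `m - 1`, to a state with `k` instead of `m` (`piv`, `pieceQ`); the jets on which the partial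
  row vanishes at the origin are divided by the parameter in the entries of the partial row only
  (`pieceS`), which gives the factor `(𝕃 - 1) / (1 - 𝕃 ^ (-m) T ^ A)`, `m = d l + 1`, `A` the sum of `l + 1`
  consecutive exponents (an entry on which no polynomial depends is dropped before). When the partial
  row is empty the first row of `C` becomes the partial row.
* The roots (`root_minors`, `root_npf`, `root_hom_ext`): the Gaussian integral of `|f| ^ (2 s)` is an
  explicit quotient of products of values of `Γ`; for a homogeneous polynomial its poles less than one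
  to the left of the largest one are roots of every polynomial `b` with `b(s) f ^ s = P(s) f ^ (s + 1)`, by
  integration by parts over the ball for natural `s`, Carlson's theorem and Landau's lemma. Functional
  equations with power series coefficients are reduced to the Weyl algebra by taking homogeneous
  components (`pieceL`).
* All exponents (`bf_pow`): for large `N` the condition `Close` holds for `f ^ N`, and
  `b(N s) b(N s + 1) ⋯ b(N s + N - 1)` is a polynomial of a functional equation of `f ^ N`.

The linear algebra of the Pfaffians (`K6/H7/PT`) and `root_hom_ext` are by helper7, `pieceQ`, `pieceL`,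
`pieceJ` by helper93, helper35, helper75. -/

namespace Pool.Agent.Results.MP_6163c8_ag.MinorsAndPfaffiansLocal

open MvPolynomial Pool.Agent.H628R4.TP Pool.Agent.TH192.DT Pool.Agent.TH192.MT
  Pool.Agent.TH192.MU Pool.Agent.W428.MOT

/-- The two kinds of generic matrices. -/
inductive Kind
  /-- matrices of size `n` -/
  | generic
  /-- skew symmetric matrices of size `2 n` -/
  | skew

/-- The number `d`: `1` for generic matrices, `2` for skew symmetric matrices. -/
def Kind.d : Kind → ℕ
  | generic => 1
  | skew => 2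

/-- The indices of the variables: the pairs `(i, j)`, `i, j < n`, for generic matrices, the pairs
`i < j < 2 n` for skew symmetric matrices. -/
def Kind.Var : Kind → ℕ → Type
  | generic, n => Fin n × Fin n
  | skew, n => {q : Fin (2 * n) × Fin (2 * n) // q.1 < q.2}

instance : (κ : Kind) → (n : ℕ) → Fintype (κ.Var n)
  | Kind.generic, n => inferInstanceAs (Fintype (Fin n × Fin n))
  | Kind.skew, n => inferInstanceAs (Fintype {q : Fin (2 * n) × Fin (2 * n) // q.1 < q.2})

/-- The generic skew symmetric `m × m` matrix; its entries above the diagonal are the variables. -/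
noncomputable def skewMatrix (m : ℕ) (i j : Fin m) :
    MvPolynomial {q : Fin m × Fin m // q.1 < q.2} ℤ :=
  if h : i < j then MvPolynomial.X ⟨(i, j), h⟩ else
    if h : j < i then - MvPolynomial.X ⟨(j, i), h⟩ else 0

/-- The polynomial `F_{k + 1}`: the determinant of the first `k + 1` rows and columns of the generic
matrix, or the Pfaffian of the first `2 (k + 1)` rows and columns of the generic skew symmetric
matrix. -/
noncomputable def Kind.F : (κ : Kind) → (n : ℕ) → Fin n → MvPolynomial (κ.Var n) ℤ
  | generic, n, k => Matrix.det (Matrix.of fun i j : Fin ((k : ℕ) + 1) =>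
      (MvPolynomial.X (Fin.castLE k.isLt i, Fin.castLE k.isLt j) : MvPolynomial (Fin n × Fin n) ℤ))
  | skew, n, k => Pool.Agent.Helper929.pf (2 * ((k : ℕ) + 1))
      (Matrix.of fun i j : Fin (2 * ((k : ℕ) + 1)) =>
        skewMatrix (2 * n) (Fin.castLE (by have := k.isLt; omega) i)
          (Fin.castLE (by have := k.isLt; omega) j))

/-- The polynomial `F_1 ^ (a 0) ⋯ F_n ^ (a (n - 1))`. -/
noncomputable def Kind.powers (κ : Kind) {n : ℕ} (a : Fin n → ℕ) : MvPolynomial (κ.Var n) ℤ :=
  ∏ k : Fin n, κ.F n k ^ a k

/-- The number `(d (j - k) + 1) / (a_k + ... + a_j)`. -/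
noncomputable def ratio (d : ℕ) {n : ℕ} (a : Fin n → ℕ) (k j : Fin n) : ℚ :=
  ((d : ℚ) * ((j : ℕ) - (k : ℕ)) + 1) / ∑ i ∈ Finset.Icc k j, (a i : ℚ)

/-- Any two of the numbers `(d (j - k) + 1) / (a_k + ... + a_j)`, `k ≤ j`, `a_j > 0`, differ by less
than one. -/
def Close (d : ℕ) {n : ℕ} (a : Fin n → ℕ) : Prop :=
  ∀ k j : Fin n, k ≤ j → 0 < a j → ∀ k' j' : Fin n, k' ≤ j' → 0 < a j' →
    ratio d a k j < 1 + ratio d a k' j'

/-- **The local topological zeta function of a product of powers of nested minors or Pfaffians at the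
origin.** There is exactly one rational function `Z` with `Z(s) = ε(E(Z_mot(𝕃 ^ (-s))))` for
`s = 1, 2, 3, …`; each of its poles `s₀` is one of the `-(d (j - k) + 1) / (a_k + ... + a_j)`, `a_j > 0`;
for every `b` which satisfies a functional equation `b(s) f ^ s = P(s) f ^ (s + 1)`, where
`P(s)` is a differential operator with formal power series coefficients at the origin, in
particular for the local Bernstein-Sato polynomial of `f`, one of the numbers `s₀, s₀ + 1, s₀ + 2, ...`
is a root of `b`, and `s₀` itself is a root of `b` if the condition `Close` holds. -/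
theorem result (κ : Kind) {n : ℕ} (a : Fin n → ℕ)
    (R : Type) [CommRing R] [IsDomain R] (E : MK ℂ →+* R) (ε : R →+* ℂ)
    (hε : ε (E ((Lu ℂ : (MK ℂ)ˣ) : MK ℂ)) = 1) (hE : E ((Lu ℂ : (MK ℂ)ˣ) : MK ℂ) ≠ 1) :
    ∃ Z : RatFunc ℂ,
      IsTopZeta E ε (zetaM (map (Int.castRingHom ℂ) (κ.powers a)) {0} {c | c ≠ 0}) Z ∧
      (∀ Z', IsTopZeta E ε
        (zetaM (map (Int.castRingHom ℂ) (κ.powers a)) {0} {c | c ≠ 0}) Z' → Z' = Z) ∧
      ∀ s₀ : ℂ, Z.denom.eval s₀ = 0 →
        (∃ k j : Fin n, k ≤ j ∧ 0 < a j ∧
          s₀ = -((κ.d : ℂ) * (((j : ℕ) : ℂ) - ((k : ℕ) : ℂ)) + 1) /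
            ((∑ i ∈ Finset.Icc k j, a i : ℕ) : ℂ)) ∧
        ∀ b : Polynomial ℂ, IsLocalBFunction (map (Int.castRingHom ℂ) (κ.powers a)) b →
          (∃ i : ℕ, b.eval (s₀ + i) = 0) ∧ (Close κ.d a → b.eval s₀ = 0) := by
  cases κ with
  | generic =>
    obtain ⟨Z, h1, h2, h3⟩ := Pool.Agent.K6.H33.PT.weak_top_minors
      Pool.Agent.K6.H93.NT.pieceQ Pool.Agent.K6.H35.NT.pieceL a (W := {0}) constr_zero E ε hε hE
    refine ⟨Z, h1, h2, fun s₀ hs => ⟨?_, fun b hb => ⟨(h3 s₀ hs).2 b hb, fun ha => ?_⟩⟩⟩
    · obtain ⟨k, j, hkj, hj, he⟩ := (h3 s₀ hs).1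
      refine ⟨k, j, hkj, hj, he.trans ?_⟩
      simp [Kind.d]
    · have hC : Pool.Agent.K6.H33.PF.Close 1 a := ha
      obtain ⟨Z', k1, k2, k3⟩ := Pool.Agent.K6.H33.PT.top_minors Pool.Agent.K6.H93.NT.pieceQ
        Pool.Agent.K6.H35.NT.pieceL a hC (W := {0}) constr_zero E ε hε hE
      have hZ : Z = Z' := k2 Z h1
      subst hZ
      exact (k3 s₀ hs).2 b hb
  | skew =>
    obtain ⟨Z, h1, h2, h3⟩ := Pool.Agent.K6.H33.PT.weak_top_npf
      Pool.Agent.K6.H93.NT.pieceQ Pool.Agent.K6.H35.NT.pieceL a (W := {0}) constr_zero E ε hε hE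
    refine ⟨Z, h1, h2, fun s₀ hs => ⟨?_, fun b hb => ⟨(h3 s₀ hs).2 b hb, fun ha => ?_⟩⟩⟩
    · obtain ⟨k, j, hkj, hj, he⟩ := (h3 s₀ hs).1
      refine ⟨k, j, hkj, hj, he.trans ?_⟩
      simp [Kind.d]
    · have hC : Pool.Agent.K6.H33.PF.Close 2 a := ha
      obtain ⟨Z', k1, k2, k3⟩ := Pool.Agent.K6.H33.PT.top_npf Pool.Agent.K6.H93.NT.pieceQ
        Pool.Agent.K6.H35.NT.pieceL a hC (W := {0}) constr_zero E ε hε hE
      have hZ : Z = Z' := k2 Z h1
      subst hZ
      exact (k3 s₀ hs).2 b hb

end Pool.Agent.Results.MP_6163c8_ag.MinorsAndPfaffiansLocal
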