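import Pool.Agent.K6.H7.UC.Fin

set_option autoImplicit false

/-!
# Local topological zeta functions and Bernstein-Sato roots: paths with disjoint blocks suffice

The conjecture (every pole of the local topological zeta function of `f` at the origin is a root of the
local Bernstein-Sato polynomial of `f`) for all polynomials with a singular point at the origin is
equivalent to the conjecture for the polynomials

`F_{N,M,a} = x_0 x_1 + x_1 x_2 + ⋯ + x_{N - 1} x_N + ∑_{e ∈ M} a_e ∏_{i ∈ e} x_i`,

where `M` is a set of pairwise disjoint sets of two or three variables: a path, and in addition a sum of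
products of pairwise disjoint pairs and triples of variables. The same is proved for the conjecture with
orders of poles.

(`CubicPolynomials` reduces the conjecture, without orders, to the cubic polynomials
`q_0(x) + ∑_k t_k q_k(x)` with squarefree monomials. Here every variable is in at most one cubic monomial
and in at most one monomial of degree two outside of the path.)

Method. (a) The polynomial `f + ∑_{j ≤ k} y_j z_j` carries the information of `f`, shifted by `k`. (b) By
polynomial automorphisms which fix the origin, and further planes `y z`, it becomes a sum of square-free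
monomials of degree two and three. (c) Disconnecting the occurrences of a variable: if `h(a, b)` has no
linear terms, then `h(a, a) + y z` is equivalent to `h(a, b) + y (a + b)` up to signs, so that
every variable occurs in one monomial and in a system of equations `a + b = 0`. (d) The bipartite graph of these
equations and the variables is a union of paths; they are joined to a single path by planes `y z`, at
the cost of further disjoint products of two variables.
-/

namespace Pool.Agent.Results.MP_6163c8_ag.PathsWithDisjointBlocks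

open MvPolynomial Pool.Agent.W428.MOT Pool.Agent.N101.CB Pool.Agent.K6.H7.UC
open Pool.Agent.H628R4.TP (IsLocalBFunction)

/-- `R` is a topological zeta function of `f` at the origin, for the ring homomorphism `χ : 𝓜 → ℂ` with
`χ(𝕃) = 1`, for instance the Euler characteristic: the motivic zeta function
`zt f {0} = ∑_N [X_N] 𝕃 ^ (-n N) T ^ N`, `X_N` the variety of the `N`-jets with origin `0` with `ord f = N`, is a
polynomial `Q` in the `F_(N, ν) = (𝕃 - 1) 𝕃 ^ (-ν) T ^ N / (1 - 𝕃 ^ (-ν) T ^ N)`, `N, ν ≥ 1`, with coefficients in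
`𝓜`, and `R = (χ Q)(1 / (N s + ν))`. By the formula with an embedded resolution the usual topological
zeta function has this property. -/
def IsTopZeta (χ : MK ℂ →+* ℂ) {n : ℕ} (f : MvPolynomial (Fin n) ℂ) (R : RatFunc ℂ) : Prop :=
  IsTop χ (zt f {0}) R

/-- The conjecture for `f`: every pole of a local topological zeta function of `f` is a root of every polynomial
`b` with a local functional equation `b(s) f ^ s = P(s) f ^ (s + 1)`, in particular of the local Bernstein-Sato
polynomial. -/
def Conj (χ : MK ℂ →+* ℂ) {n : ℕ} (f : MvPolynomial (Fin n) ℂ) : Prop :=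
  ∀ R : RatFunc ℂ, IsTopZeta χ f R → ∀ s : ℂ, ¬ Reg R s →
    ∀ b : Polynomial ℂ, IsLocalBFunction f b → b.eval s = 0

/-- The conjecture for `f`, with orders: `b R` is a polynomial, so every pole of `R` is a root of `b` of at least
the same order. -/
def ConjOrders (χ : MK ℂ →+* ℂ) {n : ℕ} (f : MvPolynomial (Fin n) ℂ) : Prop :=
  ∀ R : RatFunc ℂ, IsTopZeta χ f R → ∀ b : Polynomial ℂ, IsLocalBFunction f b →
    ∃ P : Polynomial ℂ, algebraMap (Polynomial ℂ) (RatFunc ℂ) b * R =
      algebraMap (Polynomial ℂ) (RatFunc ℂ) P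

/-- all monomials of `f` have degree at least two: `f(0) = 0`, and `0` is a critical point of `f` -/
def Singular {n : ℕ} (f : MvPolynomial (Fin n) ℂ) : Prop :=
  ∀ m ∈ f.support, 2 ≤ ∑ i, m i

/-- `M` is a set of pairwise disjoint sets with two or three elements, and `a_e ≠ 0` for `e ∈ M` -/
def DisjointBlocks {N : ℕ} (M : Finset (Finset (Fin (N + 1)))) (a : Finset (Fin (N + 1)) → ℂ) :
    Prop :=
  (∀ e ∈ M, 2 ≤ e.card ∧ e.card ≤ 3 ∧ a e ≠ 0) ∧
    (M : Set (Finset (Fin (N + 1)))).PairwiseDisjoint id

/-- The polynomial `x_0 x_1 + x_1 x_2 + ⋯ + x_{N - 1} x_N + ∑_{e ∈ M} a_e ∏_{i ∈ e} x_i`. -/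
noncomputable def pathBlocks (N : ℕ) (M : Finset (Finset (Fin (N + 1))))
    (a : Finset (Fin (N + 1)) → ℂ) : MvPolynomial (Fin (N + 1)) ℂ :=
  ∑ i : Fin N, X i.castSucc * X i.succ + ∑ e ∈ M, C (a e) * ∏ i ∈ e, X i

/-- **Paths with disjoint blocks suffice.** Let `χ : 𝓜 → ℂ` be a ring homomorphism with `χ(𝕃) = 1`.
(1) The conjecture holds for all nonzero polynomials without constant and linear terms, in any number of
variables, if and only if it holds for all `pathBlocks N M a` with `N ≥ 3` and `DisjointBlocks M a`. (2) The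
same for the conjecture with orders. (3) For every such `f` in `n` variables there are `k ≥ 2` and
`F = pathBlocks N M a`, `N + 1 = n + 2 k`, `DisjointBlocks M a`, such that for every topological zeta function
`R` of `f` there is a topological zeta function `R'` of `F` with
`(s + k) ((s + 1) R'(s) - 1) = s ((s + k + 1) R(s + k) - 1)`, and a local functional equation of `f` with
`(s + 1) c(s)` gives one of `F` with `(s + 1) c(s + k)`. -/
theorem result (χ : MK ℂ →+* ℂ) (hχ : χ ((Lu ℂ : (MK ℂ)ˣ) : MK ℂ) = 1) :
    ((∀ (N : ℕ) (M : Finset (Finset (Fin (N + 1)))) (a : Finset (Fin (N + 1)) → ℂ), 3 ≤ N →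
        DisjointBlocks M a → Conj χ (pathBlocks N M a)) ↔
      ∀ (n : ℕ) (f : MvPolynomial (Fin n) ℂ), f ≠ 0 → Singular f → Conj χ f) ∧
    ((∀ (N : ℕ) (M : Finset (Finset (Fin (N + 1)))) (a : Finset (Fin (N + 1)) → ℂ), 3 ≤ N →
        DisjointBlocks M a → ConjOrders χ (pathBlocks N M a)) ↔
      ∀ (n : ℕ) (f : MvPolynomial (Fin n) ℂ), f ≠ 0 → Singular f → ConjOrders χ f) ∧
    ∀ (n : ℕ) (f : MvPolynomial (Fin n) ℂ), f ≠ 0 → Singular f →
      ∃ (N : ℕ) (M : Finset (Finset (Fin (N + 1)))) (a : Finset (Fin (N + 1)) → ℂ) (k : ℕ),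
        2 ≤ k ∧ N + 1 = n + 2 * k ∧ DisjointBlocks M a ∧
        (∀ R : RatFunc ℂ, IsTopZeta χ f R → ∃ R' : RatFunc ℂ, IsTopZeta χ (pathBlocks N M a) R' ∧
          (RatFunc.X + (k : RatFunc ℂ)) * ((RatFunc.X + 1) * R' - 1) =
            RatFunc.X * ((RatFunc.X + (k : RatFunc ℂ) + 1) * shR (k : ℂ) R - 1)) ∧
        ∀ c : Polynomial ℂ, IsLocalBFunction f ((Polynomial.X + 1) * c) →
          IsLocalBFunction (pathBlocks N M a)
            ((Polynomial.X + 1) * c.comp (Polynomial.X + Polynomial.C (k : ℂ))) := by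
  have hnf : ∀ (N : ℕ) (M : Finset (Finset (Fin (N + 1)))) (a : Finset (Fin (N + 1)) → ℂ), 3 ≤ N →
      DisjointBlocks M a → pathBlocks N M a ≠ 0 ∧ Singular (pathBlocks N M a) :=
    fun N M a hN h => ⟨nf_ne (by omega) (fun e he => (h.1 e he).1) h.2,
      (sq_iff _).1 (sq_nf fun e he => (h.1 e he).1)⟩
  refine ⟨⟨fun h n f hf hs => ?_, fun h N M a hN hM => h _ _ (hnf N M a hN hM).1
      (hnf N M a hN hM).2⟩,
    ⟨fun h n f hf hs => ?_, fun h N M a hN hM => h _ _ (hnf N M a hN hM).1 (hnf N M a hN hM).2⟩,
    fun n f hf hs => ?_⟩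
  · obtain ⟨N, M, a, k, hk, hN, h1, h2, h3⟩ := normal f hs
    have hsq := (sq_iff f).2 hs
    exact h3.lts hχ (deg_ne hf hsq) hsq.const (h N M a (by omega) ⟨h1, h2⟩)
  · obtain ⟨N, M, a, k, hk, hN, h1, h2, h3⟩ := normal f hs
    have hsq := (sq_iff f).2 hs
    exact h3.lto hχ (deg_ne hf hsq) hsq.const (h N M a (by omega) ⟨h1, h2⟩)
  · obtain ⟨N, M, a, k, hk, hN, h1, h2, h3⟩ := normal f hs
    have hsq := (sq_iff f).2 hs
    refine ⟨N, M, a, k, hk, hN, ⟨h1, h2⟩, fun R hR => ?_, fun c hc => ?_⟩
    · obtain ⟨R', h4, h5, -⟩ := h3.ltop hsq.const χ hχ R hR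
      exact ⟨R', h4, h5⟩
    · exact (h3.lb (deg_ne hf hsq) hsq.const _ hc).2 c rfl

end Pool.Agent.Results.MP_6163c8_ag.PathsWithDisjointBlocks
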