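import Mathlib
import Pool.Agent.K6.H7.LG.Spa

/-!
# The local strong monodromy conjecture for functions on germs with sparse equations

Let `V = {l_1(x, z) = ⋯ = l_k(x, z) = 0} ⊆ ℂ ^ (N + k)` be a smooth germ at the origin on which
`x = (x_1, …, x_N)` are coordinates, and let the germ `f(x)` be the restriction to `V` of a polynomial
`F(x, z)`. Let the `l_i` and `F` be SPARSE polynomials with ARBITRARY nonzero coefficients: the
exponents of `F + ∑ y_i l_i` are affinely independent; terms of higher order may be added to `F` and to
the `l_i`. We prove that `b_f(s) (s - k) Z_f(s)` is a polynomial, where `b_f` is the Bernstein-Sato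
polynomial of the germ `f` and `Z_f` is its local topological zeta function: every pole of `Z_f` is a
root of `b_f`, of at least the same order.

For example, `f = a x ^ α h(x) ^ e + a' x ^ β`, where `h = ∑_l c_l x ^ (m_l)` is quasi-homogeneous of degree
`d` for some weights `W`, with affinely independent exponents, and `W · β ≠ W · α + e d` (with `z = h(x)`,
`F = a x ^ α z ^ e + a' x ^ β`, `l = z - h`), such as `(x² + y³ + z⁵)² + x ^ i y ^ j z ^ k` with
`i / 2 + j / 3 + k / 5 ≠ 2`, and these functions after terms of higher order are added to `F` and `h`. These `f`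
are in general degenerate with respect to their Newton polyhedra, in all coordinates, and their
singularities are not isolated.

For generic coefficients the strong conjecture is in `GenericCompleteIntersections`, and for all
coefficients only the weak conjecture (in which the pole is a root of `b_f` up to an integer) is known
(`StablyNondegenerateGerms`); the case `k = 0` is `SparseHigherOrder`.

Method. The function `f + y_1 z_1 + ⋯ + y_k z_k` becomes `g = F + ∑ y_i l_i` in other formal
coordinates at the origin. If `b_f(s) = (s + 1) c(s)`, then this gives a functional equation of `g` with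
`(s + 1) c(s + k)`. By the theorem for sparse polynomials plus terms of higher order,
`(s + 1) c(s + k) Z_g(s)` is a polynomial. Finally `Z_f` and `Z_g` are related by
`1 - Z_f(s) = (1 - Z_g(s - k)) s (s - k + 1) / ((s - k) (s + 1))`.
-/

set_option autoImplicit false

namespace Pool.Agent.Results.MP_6163c8_ag.SparseCompleteIntersections

open Polynomial Pool.Agent.K6.H7.LG
open Pool.Agent.W425.SM (sparse SmoothFan Principal)
open Pool.Agent.W425.SL (topZetaSparseLocal)
open Pool.Agent.W425.SH (Higher Above)
open Pool.Agent.Y229.RE (unstab ex)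
open Pool.Agent.Y229.PS (Becomes IsFormalBFunction)

/-- **The strong monodromy conjecture, with multiplicities, for the local topological zeta
functions of stably sparse germs, and of functions on smooth complete intersections with sparse
equations.**

`IsFormalBFunction f b` says that `b(s) f ^ s = P(s) f ^ (s + 1)` for a differential operator `P(s)`
with formal (in particular convergent) power series coefficients, for the formal (in particular
convergent) power series `f`; for example `b = b_f`, the Bernstein-Sato polynomial of the germ.

First part. Let `f ∈ ℂ[[x_1, …, x_N]]`, `f ≠ 0`, `f(0) = 0`, be such that `f(x) + ∑_{i ≤ k} y_i z_i`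
becomes `g = ∑_j a_j X ^ (v j) + h`, up to a unit factor, in suitable formal coordinates at the origin
(`Becomes`), where the `v j ≠ 0` are affinely independent, `a_j ≠ 0`, and `h = 0`, or `h` is of higher
order: there is a weight `ρ` (a linear functional with real values of any signs) with `ρ(v j) = 1` for
all `j` and `ρ(w) > 1` for all exponents `w` of `h` (`Higher`), and these are in the Newton polyhedron of
the `v j` but not on its compact faces (`Above`). Then `b(s) (s - k) Z_f(s)` is a polynomial for every
`b` with `IsFormalBFunction f b`; so every pole `s0 ≠ k` of `Z_f` is a root of `b`, of at least the same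
order (all the poles of `Z_f` are negative rational numbers). Here `Z_f = unstab k 1 Z`, that is
`1 - Z_f(s) = (1 - Z(s - k)) s (s - k + 1) / ((s - k) (s + 1))`, where `Z = topZetaSparseLocal v R` is the
local topological zeta function of `g`, computed on the toric embedded resolution given by any
smooth fan `R` on which the ideal `(X ^ (v j))_j` becomes principal.

Second part. Let `tupS π m a H i = ∑_{π j = i} a_j x ^ (m_j) + H_i` for `i = 0, …, k` be polynomials in
`N + k` variables `x, z`, `H_i(0) = 0`; put `F = tupS π m a H 0`, `l_i = tupS π m a H i`, `i = 1, …, k`. Let the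
exponents `ex π m` of the first terms of `F + ∑ y_i l_i` be affinely independent, `m_j ≠ 0`, `a_j ≠ 0`, and
let `hS H = H_0 + ∑ y_i H_i` be zero or of higher order, as above. If the matrix of the `∂ l_i / ∂ z_j` is
invertible at the origin (so that `V = {l = 0}` is smooth with coordinates `x`), and if `f ∈ ℂ[[x]]`,
`f ≠ 0`, is the restriction of `F` to `V`, that is `F = f + ∑ q_i l_i` with formal power series `q_i`, and
if `q_i(0) = 0` (which is automatic if `F` has no linear part), then the same conclusion holds for
`f`, with the exponents `ex π m` of `F + ∑ y_i l_i`. -/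
theorem result :
    (∀ {N k r : ℕ}, 1 ≤ r → ∀ v : Fin r → Fin (N + (k + k)) → ℕ,
      AffineIndependent ℚ (fun j => (fun i => (v j i : ℚ) : Fin (N + (k + k)) → ℚ)) →
      (∀ j, v j ≠ 0) → ∀ a : Fin r → ℂ, (∀ j, a j ≠ 0) →
      ∀ h : MvPolynomial (Fin (N + (k + k))) ℂ, (h = 0 ∨ Higher v h) → Above v h →
      ∀ f : MvPowerSeries (Fin N) ℂ, f ≠ 0 → MvPowerSeries.constantCoeff f = 0 →
      Becomes f k (sparse v a + h) → ∀ b : ℂ[X], IsFormalBFunction f b →
      ∀ R : SmoothFan (N + (k + k)), Principal v R →
        ∃ P : ℂ[X], algebraMap ℂ[X] (RatFunc ℂ) (b * (X - C (k : ℂ))) *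
          unstab k 1 (topZetaSparseLocal v R) = algebraMap ℂ[X] (RatFunc ℂ) P) ∧
    (∀ {N k r : ℕ}, 1 ≤ r → ∀ (π : Fin r → Fin (k + 1)) (m : Fin r → Fin (N + k) → ℕ),
      (∀ j, m j ≠ 0) →
      AffineIndependent ℚ (fun j => (fun i => (ex π m j i : ℚ) : Fin (N + (k + k)) → ℚ)) →
      ∀ a : Fin r → ℂ, (∀ j, a j ≠ 0) → ∀ H : Fin (k + 1) → MvPolynomial (Fin (N + k)) ℂ,
      (∀ i, MvPolynomial.constantCoeff (H i) = 0) → (hS H = 0 ∨ Higher (ex π m) (hS H)) →
      Above (ex π m) (hS H) →
      (Matrix.of fun i j : Fin k => MvPolynomial.coeff (Finsupp.single (Fin.natAdd N j) 1)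
        (tupS π m a H i.succ)).det ≠ 0 →
      ∀ (f : MvPowerSeries (Fin N) ℂ) (q : Fin k → MvPowerSeries (Fin (N + k)) ℂ), f ≠ 0 →
        (∀ i, MvPowerSeries.constantCoeff (q i) = 0) →
        (tupS π m a H 0 : MvPowerSeries (Fin (N + k)) ℂ) =
          MvPowerSeries.rename (Fin.castAdd k) f +
            ∑ i, q i * (tupS π m a H i.succ : MvPowerSeries (Fin (N + k)) ℂ) →
      ∀ b : ℂ[X], IsFormalBFunction f b →
      ∀ R : SmoothFan (N + (k + k)), Principal (ex π m) R →
        ∃ P : ℂ[X], algebraMap ℂ[X] (RatFunc ℂ) (b * (X - C (k : ℂ))) *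
          unstab k 1 (topZetaSparseLocal (ex π m) R) = algebraMap ℂ[X] (RatFunc ℂ) P) :=
  ⟨fun hr v hv hv0 a ha h h1 h2 f hf0 hf hB b hb R hR =>
      strong_sparse hr v hv hv0 a ha h h1 h2 f hf0 hf hB b hb R hR,
    fun hr π m hm hv a ha H hH h1 h2 hdet f q hf0 hq hF b hb R hR =>
      ci_sparse hr π m hm hv a ha H hH h1 h2 hdet f q hf0 hq hF b hb R hR⟩

end Pool.Agent.Results.MP_6163c8_ag.SparseCompleteIntersections
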