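import Pool.Agent.K6.H39.RC.Main

set_option autoImplicit false

/-! # Poles of local topological zeta functions and roots of Bernstein-Sato polynomials: a class of
# germs closed under sums, products, powers, generic linear forms, Thom-Sebastiani sums and stable
# contact equivalence, without conditions at `-1`

Let `𝓘` and `𝓗` be the least classes of germs at the origin of ideals and of hypersurfaces (given by
polynomials), with their local topological zeta functions, such that (`Germs`):

* `𝓘` contains the ideals `BaseI`: all ideals of `ℂ[x, y]`; all `h(x₁, x₂) (f₀ + ∑ y_j f_j(x₁, x₂)) ^ a`;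
  products of ideals whose divisors are Rees divisors; products of ideals of linear subspaces (building
  sets of Rees flats); ideals generated by forms of the same degree in three variables, three of which
  are algebraically independent; ideals generated by forms of the same degree without a common zero
  outside the origin; `𝓗` contains the polynomials `∑_j a_j x ^ (v j) + h` with generic coefficients `a_j` at the
  vertices (`G(a) ≠ 0` for a nonzero polynomial `G`), and the sparse polynomials with affinely
  independent exponents plus higher order terms (`BaseH`);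
* `𝓘` is closed under sums and products in disjoint sets of variables, and `(f_j)` is in `𝓘` if and
  only if `∑ y_j f_j(x)` is in `𝓗`, with new variables `y_j`;
* every principal ideal `(g)` in `𝓘` is in `𝓗` if its zeta function has at most a simple pole at `-1`, or
  if `g` is the product of two coprime non-units in the formal power series at points arbitrarily near
  the origin, in the Zariski topology (`Splits`); all the powers `g ^ k`, `k ≥ 2`, for `(g)` in `𝓘` are
  in `𝓗`;
* `𝓗` contains `h(x) ∏_t (∑_j y_{t, j} f_{t, j}(x)) ^ a_t` for `h ∏_t (f_{t, j})_j ^ a_t` in `𝓘`, and the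
  Thom-Sebastiani sums `∑ y_j f_j(x) + g(z)` for `(f_j)` in `𝓘` and `g` in `𝓗`, `g(0) = 0`;
* `𝓗` is closed under stable contact equivalence: if `f(x) + y_1 z_1 + ⋯ + y_k z_k` becomes `g` in
  `𝓗` in suitable formal coordinates and up to a unit factor, then `f` is in `𝓗`; the same holds for the
  principal ideals in `𝓘`; variables which do not occur may be dropped.

We prove that every pole of the local topological zeta function `Z` is a root of the local
Bernstein-Sato polynomial `b` for the hypersurfaces in these classes, that every pole of `(s + 1) Z(s)`
is a root of `b(s) / (s + 1)` for the hypersurfaces in `𝓗` (so `-1` is a double root if it is a double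
pole), and the corresponding statement for all germs of holomorphic functions (or formal power
series) which are stably contact equivalent to a principal ideal in `𝓘` or a member of `𝓗`.

The new ingredients. (1) If `g = u v` in `ℂ[[x]]`, `u`, `v` a regular sequence without constant terms,
then `B(0, -1) = 0` for every equation `(s + 1) B(x, s) g ^ s = P(s) g ^ (s + 1)`: for an operator `P` the
coefficient of `ε` in `g ^ (-ε) P(g ^ ε)` is additive in `log g = log u + log v`, so that
`B(x, -1) / g` is in `ℂ[[x]][1 / u] + ℂ[[x]][1 / v]` (`rf_red`). (2) If `-k` is a root forced for `g`, then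
`B(0, -1) = 0` for all such equations of `g ^ k`, `k ≥ 2` (`rf_pow`). (3) A local functional equation of
`(f_j)` with `b(s)` gives one of `∑ y_j f_j` with `(s + 1) b(s)` (`locU`). (4) `v(z)` is not a
zero divisor modulo `u(x)` (`dvd_of_disjoint`). In the starting repository the members of the classes of
hypersurfaces are not allowed to have a double pole at `-1` (`DegreeOneClosureLocal`,
`ThomSebastianiLocal`), so that for example `∑ y_j f_j(x) + g(z) g'(w)`, `∑ y_j f_j(x) + g(z) ^ k`, and
Thom-Sebastiani sums with generic nondegenerate polynomials which have a double pole at `-1` are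
excluded, and coordinate changes are allowed only for generic nondegenerate polynomials
(`GenericCompleteIntersections`). -/

namespace Pool.Agent.Results.MP_6163c8_ag.StableContactClosure

open MvPolynomial Pool.Agent.W574.RO Pool.Agent.K6.H39.RC
open Pool.Agent.H628R4.TP (IsLocalBFunction)

/-- There are polynomials `G r N F v h` in the coefficients, which are not zero for all admissible data,
with the following properties. Let `Germs G` be the classes of ideals (`false`) and of hypersurfaces
(`true`) described above.

(1) Let the principal ideal `(F)` be in the class of ideals, with the local topological zeta function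
`Z`, and let `b` satisfy `b(s) F ^ s = P(s) F ^ (s + 1)`, where `P(s)` is a differential operator with
formal (in particular convergent) power series at the origin as coefficients. Then every pole of `Z`
is a root of `b`.

(2) Let the hypersurface `F` be in the class of hypersurfaces, and let `(s + 1) c(s)` satisfy such an
equation. Then every pole of `(s + 1) Z(s)` is a root of `c`.

(3) Let `f` be a formal power series (for instance the germ of a holomorphic function), `f ≠ 0`,
`f(0) = 0`, such that `f(x) + y_1 z_1 + ⋯ + y_k z_k` becomes, in suitable formal coordinates and up to a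
unit factor, a polynomial `g`. If the principal ideal `(g)` is in the class of ideals, with the local
topological zeta function `Z`, then the one of `f` is `Z_f = unst k Z`, that is
`1 - Z_f(s) = (1 - Z(s - k)) s (s - k + 1) / ((s - k) (s + 1))`, and every pole `s₀ ∉ ℕ` of `Z_f` is a root
of every `b` with `b(s) f ^ s = P(s) f ^ (s + 1)`, `P(s)` a differential operator with formal power
series coefficients (all poles are negative). If `g` is in the class of hypersurfaces and
`b(s) = (s + 1) c(s)`, then every pole `s₀ ≠ k` of `(s + 1) Z_f(s)` is a root of `c`.

(4) If `g(x)`, `g'(z)`, `g(0) = g'(0) = 0`, are in the class of ideals (as principal ideals), then the product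
`g(x) g'(z)` is in the class of hypersurfaces, so (2) holds also for the Thom-Sebastiani sums
`∑ y_j f_j(w) + g(x) g'(z)`, whose last summand may have a double pole at `-1`. -/
theorem result : ∃ G : GenCond,
    (∀ (r N : ℕ) (F : Subfield ℂ) (v : Fin r → Fin N → ℕ) (h : MvPolynomial (Fin N) F), 1 ≤ r →
      Function.Injective v → (∀ j, v j ≠ 0) → (∀ w ∈ h.support, InNP v w) → G r N F v h ≠ 0) ∧
    (∀ (σ : Type) (F : MvPolynomial σ ℂ) (Z : RatFunc ℂ),
      Germs G false ⟨σ, Fin 1, fun _ => F⟩ Z →
      ∀ b : Polynomial ℂ, IsLocalBFunction F b →
      ∀ s₀ : ℂ, Z.denom.eval s₀ = 0 → b.eval s₀ = 0) ∧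
    (∀ (σ : Type) (F : MvPolynomial σ ℂ) (Z : RatFunc ℂ),
      Germs G true ⟨σ, Fin 1, fun _ => F⟩ Z →
      ∀ c : Polynomial ℂ, IsLocalBFunction F ((Polynomial.X + 1) * c) →
      ∀ s₀ : ℂ, ((RatFunc.X + 1) * Z).denom.eval s₀ = 0 → c.eval s₀ = 0) ∧
    (∀ (N k : ℕ) (f : MvPowerSeries (Fin N) ℂ), f ≠ 0 → MvPowerSeries.constantCoeff f = 0 →
      ∀ (g : MvPolynomial (Fin (N + (k + k))) ℂ) (Z : RatFunc ℂ), BecomesS f k g →
      (Germs G false ⟨Fin (N + (k + k)), Fin 1, fun _ => g⟩ Z →
        ∀ b : Polynomial ℂ, IsFormalB f b →
        ∀ s₀ : ℂ, (∀ n : ℕ, s₀ ≠ n) → (unst k Z).denom.eval s₀ = 0 → b.eval s₀ = 0) ∧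
      (Germs G true ⟨Fin (N + (k + k)), Fin 1, fun _ => g⟩ Z →
        ∀ c : Polynomial ℂ, IsFormalB f ((Polynomial.X + 1) * c) →
        ∀ s₀ : ℂ, s₀ ≠ k → ((RatFunc.X + 1) * unst k Z).denom.eval s₀ = 0 →
          c.eval s₀ = 0)) ∧
    (∀ (σ τ : Type) (g : MvPolynomial σ ℂ) (g' : MvPolynomial τ ℂ) (Z W : RatFunc ℂ),
      constantCoeff g = 0 → constantCoeff g' = 0 →
      Germs G false ⟨σ, Fin 1, fun _ => g⟩ Z → Germs G false ⟨τ, Fin 1, fun _ => g'⟩ W →
      Germs G true ⟨σ ⊕ τ, Fin 1, fun _ => rename Sum.inl g * rename Sum.inr g'⟩ (Z * W)) :=
  germs_result

end Pool.Agent.Results.MP_6163c8_ag.StableContactClosure
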